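import Pool.Agent.Helper95_CM.StG
import Pool.Agent.Helper95_CM.Base

/-!
# CM project, module CGU: the discriminant of the family does not vanish
-/

set_option autoImplicit false
set_option linter.unusedSectionVars false

noncomputable section

namespace Pool.Agent.Helper95_CM.H1

open MvPolynomial

/-! ### coefficients of polynomials in a subring -/

section sub
variable {n M : ℕ} {R : Type} [CommRing R] (S : Subring R)

/-- coefficients in `S` -/
def Cin (x : PP n R) : Prop := ∀ s, coeff s x ∈ S

variable {S}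

lemma Cin.mul {x y : PP n R} (hx : Cin S x) (hy : Cin S y) : Cin S (x * y) := by
  intro s
  rw [coeff_mul]
  exact Subring.sum_mem _ fun a _ => S.mul_mem (hx _) (hy _)

lemma Cin.sub {x y : PP n R} (hx : Cin S x) (hy : Cin S y) : Cin S (x - y) := by
  intro s
  rw [coeff_sub]
  exact S.sub_mem (hx _) (hy _)

lemma Cin.map (x : PP n S) : Cin S (map S.subtype x) := by
  intro s
  rw [coeff_map]
  exact (coeff s x).2

lemma Cin.cder {x : PP n R} (hx : Cin S x) (d : R →+ R) (hd : ∀ a ∈ S, d a ∈ S) :
    Cin S (cder d x) := by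
  intro s
  rw [coeff_cder]
  exact hd _ (hx _)

end sub

/-! ### the top degree part -/

section top
variable {O : Type} [CommRing O]

lemma natDegree_lin (a v : O) : (Polynomial.C a + Polynomial.C v * Polynomial.X).natDegree ≤ 1 := by
  refine (Polynomial.natDegree_add_le _ _).trans ?_
  simp only [Polynomial.natDegree_C, zero_le, sup_of_le_right]
  exact (Polynomial.natDegree_C_mul_le _ _).trans Polynomial.natDegree_X_le

lemma coeff_prod_top {σ : Type} (s : Finset σ) (f : σ → Polynomial O) (m : σ → ℕ)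
    (h : ∀ i ∈ s, (f i).natDegree ≤ m i) :
    (∏ i ∈ s, f i).natDegree ≤ ∑ i ∈ s, m i ∧
      (∏ i ∈ s, f i).coeff (∑ i ∈ s, m i) = ∏ i ∈ s, (f i).coeff (m i) := by
  classical
  induction s using Finset.induction_on with
  | empty => simp
  | insert i s hi ih =>
    obtain ⟨h1, h2⟩ := ih fun j hj => h j (Finset.mem_insert_of_mem hj)
    have h3 := h i (Finset.mem_insert_self i s)
    rw [Finset.prod_insert hi, Finset.sum_insert hi, Finset.prod_insert hi]
    refine ⟨(Polynomial.natDegree_mul_le).trans (add_le_add h3 h1), ?_⟩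
    rw [Polynomial.coeff_mul_add_eq_of_natDegree_le h3 h1, h2]

lemma coeff_monomial_top {σ : Type} [Fintype σ] (a v : σ → O) (α : σ →₀ ℕ) (d : ℕ)
    (hd : ∑ i, α i ≤ d) :
    (∏ i, (Polynomial.C (a i) + Polynomial.C (v i) * Polynomial.X) ^ α i).coeff d =
      if ∑ i, α i = d then ∏ i, v i ^ α i else 0 := by
  have h1 : ∀ i ∈ Finset.univ,
      ((Polynomial.C (a i) + Polynomial.C (v i) * Polynomial.X) ^ α i).natDegree ≤ α i := by
    intro i _
    refine (Polynomial.natDegree_pow_le).trans ?_
    calc α i * _ ≤ α i * 1 := Nat.mul_le_mul_left _ (natDegree_lin _ _)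
      _ = α i := mul_one _
  obtain ⟨h2, h3⟩ := coeff_prod_top Finset.univ _ _ h1
  split_ifs with h
  · subst h
    rw [h3]
    refine Finset.prod_congr rfl fun i _ => ?_
    have := Polynomial.coeff_pow_of_natDegree_le (m := α i) (natDegree_lin (a i) (v i))
    rw [mul_one] at this
    rw [this]
    simp
  · exact Polynomial.coeff_eq_zero_of_natDegree_lt (lt_of_le_of_lt h2 (lt_of_le_of_ne hd h))

/-- coefficient of the evaluation in top degree -/
lemma coeff_aeval_top {σ : Type} [Fintype σ] (a v : σ → O) (P : MvPolynomial σ ℤ) (d : ℕ)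
    (hd : ∀ α ∈ P.support, ∑ i, α i ≤ d) :
    (aeval (fun i => Polynomial.C (a i) + Polynomial.C (v i) * Polynomial.X) P).coeff d =
      ∑ α ∈ P.support, ((coeff α P : ℤ) : O) * (if ∑ i, α i = d then ∏ i, v i ^ α i else 0) := by
  rw [aeval_def, eval₂_eq', Polynomial.finsetSum_coeff]
  refine Finset.sum_congr rfl fun α hα => ?_
  rw [← coeff_monomial_top a v α d (hd α hα)]
  have : (algebraMap ℤ (Polynomial O)) (coeff α P) = Polynomial.C ((coeff α P : ℤ) : O) := by
    simp
  rw [this, Polynomial.coeff_C_mul]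

/-- `O[X] → O((t))`, `X ↦ t^D` -/
def gD (D : ℕ) : Polynomial O →+* LaurentSeries O :=
  Polynomial.eval₂RingHom HahnSeries.C (tt O ^ D)

lemma tt_pow (D : ℕ) : tt O ^ D = HahnSeries.single ((D : ℕ) : ℤ) 1 := by
  unfold tt
  rw [HahnSeries.single_pow]
  simp

lemma gD_coeff {D : ℕ} (hD : 1 ≤ D) (P : Polynomial O) (k : ℕ) :
    (gD D P).coeff ((D * k : ℕ) : ℤ) = P.coeff k := by
  induction P using Polynomial.induction_on' with
  | add p q hp hq => rw [map_add, HahnSeries.coeff_add, hp, hq, Polynomial.coeff_add]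
  | monomial i a =>
    unfold gD
    rw [Polynomial.coe_eval₂RingHom, Polynomial.eval₂_monomial, tt_pow, HahnSeries.single_pow,
      one_pow, HahnSeries.C_apply, HahnSeries.single_mul_single, zero_add, mul_one,
      HahnSeries.coeff_single, Polynomial.coeff_monomial]
    have h : (((D * k : ℕ) : ℤ) = i • ((D : ℕ) : ℤ)) ↔ i = k := by
      rw [nsmul_eq_mul]
      constructor
      · intro h
        have h' : D * k = i * D := by exact_mod_cast h
        rw [mul_comm D k] at h'
        exact (Nat.eq_of_mul_eq_mul_right hD h').symm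
      · rintro rfl
        push_cast
        ring
    simp only [h]

end top

/-! ### monomials in the generic parameters -/

section mono
variable {q : ℕ} {K : Type} [Field K]

lemma prod_single {σ : Type} (s : Finset σ) (g : σ → Gam q) (m : σ → ℕ) :
    (∏ i ∈ s, (HahnSeries.single (g i) (1 : K) : CC q K) ^ m i) =
      HahnSeries.single (∑ i ∈ s, m i • g i) 1 := by
  classical
  induction s using Finset.induction_on with
  | empty => simp
  | insert i s hi ih =>
    rw [Finset.prod_insert hi, Finset.sum_insert hi, ih, HahnSeries.single_pow,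
      HahnSeries.single_mul_single]
    simp

/-- exponent of the monomial `∏ v_β^(α β)` -/
def ex {σ : Type} [Fintype σ] (g : σ ≃ Fin q) (α : σ →₀ ℕ) : Gam q :=
  ∑ i, α i • (toLex (Pi.single (g i) (1 : ℤ)) : Gam q)

lemma gco_ex {σ : Type} [Fintype σ] (g : σ ≃ Fin q) (α : σ →₀ ℕ) (j : σ) :
    gco q (g j) (ex g α) = (α j : ℤ) := by
  classical
  unfold ex
  rw [map_sum]
  have h : ∀ i ∈ Finset.univ, gco q (g j) (α i • (toLex (Pi.single (g i) (1 : ℤ)) : Gam q)) =
      if j = i then (α i : ℤ) else 0 := by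
    intro i _
    rw [map_nsmul]
    have : gco q (g j) (toLex (Pi.single (g i) (1 : ℤ)) : Gam q) = if j = i then 1 else 0 := by
      change (Pi.single (g i) (1 : ℤ) : Fin q → ℤ) (g j) = _
      by_cases hij : j = i
      · subst hij; simp
      · rw [if_neg hij, Pi.single_eq_of_ne]
        intro h
        exact hij (g.injective h)
    rw [this]
    split_ifs <;> simp
  rw [Finset.sum_congr rfl h, Finset.sum_ite_eq Finset.univ j]
  simp

lemma ex_inj {σ : Type} [Fintype σ] (g : σ ≃ Fin q) {α α' : σ →₀ ℕ}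
    (h : ex g α = ex g α') : α = α' := by
  ext j
  have := gco_ex g α j
  rw [h, gco_ex] at this
  exact_mod_cast this.symm

lemma sum_ne_zero {σ : Type} [Fintype σ] [CharZero K] (g : σ ≃ Fin q) (P : MvPolynomial σ ℤ)
    (d : ℕ) (α0 : σ →₀ ℕ) (h0 : α0 ∈ P.support) (h0d : ∑ i, α0 i = d) :
    (∑ α ∈ P.support, ((coeff α P : ℤ) : OO q K) *
      (if ∑ i, α i = d then ∏ i, (HahnSeries.C (vC q K (g i)) : OO q K) ^ α i else 0)) ≠ 0 := by
  classical
  intro hz
  have h1 : (∑ α ∈ P.support, ((coeff α P : ℤ) : OO q K) *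
      (if ∑ i, α i = d then ∏ i, (HahnSeries.C (vC q K (g i)) : OO q K) ^ α i else 0)) =
      HahnSeries.C (∑ α ∈ P.support, ((coeff α P : ℤ) : CC q K) *
      (if ∑ i, α i = d then (HahnSeries.single (ex g α) 1 : CC q K) else 0)) := by
    rw [map_sum]
    refine Finset.sum_congr rfl fun α _ => ?_
    rw [map_mul, map_intCast]
    congr 1
    split_ifs with h
    · unfold ex
      rw [← prod_single, map_prod]
      refine Finset.prod_congr rfl fun i _ => ?_
      rw [map_pow]
      rfl
    · rw [map_zero]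
  rw [h1] at hz
  have h2 := HahnSeries.C_injective (hz.trans (map_zero _).symm)
  have h3 := congrArg (fun x : CC q K => x.coeff (ex g α0)) h2
  simp only [HahnSeries.coeff_sum, HahnSeries.coeff_zero] at h3
  have h4 : ∀ α ∈ P.support, (((coeff α P : ℤ) : CC q K) *
      (if ∑ i, α i = d then (HahnSeries.single (ex g α) 1 : CC q K) else 0)).coeff (ex g α0) =
      if α = α0 then ((coeff α0 P : ℤ) : K) else 0 := by
    intro α _
    have hc : ((coeff α P : ℤ) : CC q K) = HahnSeries.C ((coeff α P : ℤ) : K) := by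
      rw [map_intCast]
    by_cases h : α = α0
    · subst h
      rw [if_pos h0d, if_pos rfl, hc, HahnSeries.C_mul_eq_smul, HahnSeries.coeff_smul,
        HahnSeries.coeff_single_same]
      simp
    · rw [if_neg h]
      split_ifs with h'
      · rw [hc, HahnSeries.C_mul_eq_smul, HahnSeries.coeff_smul, HahnSeries.coeff_single_of_ne]
        · simp
        · intro he
          exact h (ex_inj g he).symm
      · simp
  rw [Finset.sum_congr rfl h4, Finset.sum_ite_eq' P.support α0, if_pos h0] at h3
  have h5 : coeff α0 P ≠ 0 := mem_support_iff.mp h0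
  exact h5 (by exact_mod_cast h3)

end mono

/-! ### the family -/

section fam
variable {n M D : ℕ} {K : Type} [Field K]

/-- the constant part of `cgen` -/
def cA (f : MvPolynomial (Fin n) K) (β : Grid n M) : OO (qG n M) K :=
  ((bin β : ℕ) : OO (qG n M) K) -
    wO (qG n M) K * HahnSeries.C (HahnSeries.C (ftil f β))

lemma cgen_eq (f : MvPolynomial (Fin n) K) (β : Grid n M) :
    cgen D f β = HahnSeries.C (cA f β) +
      HahnSeries.C (HahnSeries.C (vC (qG n M) K (gi β))) * tt (OO (qG n M) K) ^ D := by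
  unfold cgen cA wL kL tL vL
  rw [map_sub, map_mul, map_natCast]
  simp only [RingHom.coe_comp, Function.comp_apply]
  ring

lemma cgen_eq_gD (f : MvPolynomial (Fin n) K) (β : Grid n M) :
    cgen D f β = gD D (Polynomial.C (cA f β) +
      Polynomial.C (HahnSeries.C (vC (qG n M) K (gi β))) * Polynomial.X) := by
  rw [cgen_eq]
  unfold gD
  simp

lemma ordGe_C {O : Type} [CommRing O] (x : O) : OrdGe 0 (HahnSeries.C x : LaurentSeries O) := by
  intro i hi
  rw [HahnSeries.C_apply, HahnSeries.coeff_single_of_ne (ne_of_lt hi)]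

lemma ordGe_cgen (f : MvPolynomial (Fin n) K) (β : Grid n M) : OrdGe 0 (cgen D f β) := by
  intro i hi
  rw [cgen_eq, HahnSeries.coeff_add, ordGe_C _ i hi, zero_add, tt_pow, HahnSeries.C_apply,
    HahnSeries.single_mul_single, HahnSeries.coeff_single_of_ne]
  intro h
  rw [h, zero_add] at hi
  omega

lemma dt_ne {b : Bool} [CharZero K] (A : CAD n M b) (hD : 1 ≤ D) (f : MvPolynomial (Fin n) K) :
    dt A (cgen D f) ≠ 0 := by
  classical
  have h1 : (cgen D f : Grid n M → LL (qG n M) K) = fun β => gD D (Polynomial.C (cA f β) +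
      Polynomial.C (HahnSeries.C (vC (qG n M) K (gi β))) * Polynomial.X) := by
    funext β
    exact cgen_eq_gD f β
  rw [h1]
  have h1' := dt_map A (gD D) (fun β => Polynomial.C (cA f β) +
      Polynomial.C (HahnSeries.C (vC (qG n M) K (gi β)) : OO (qG n M) K) * Polynomial.X)
  rw [h1']
  obtain ⟨α0, h0, h0d⟩ := Finset.exists_mem_eq_sup A.Dt.support
    (MvPolynomial.support_nonempty.mpr A.Dt_ne) (fun α => ∑ i, α i)
  have hd : ∀ α ∈ A.Dt.support, ∑ i, α i ≤ A.Dt.support.sup (fun α => ∑ i, α i) :=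
    fun α hα => Finset.le_sup (f := fun α : Grid n M →₀ ℕ => ∑ i, α i) hα
  have h2 := coeff_aeval_top (O := OO (qG n M) K) (cA f)
    (fun β => HahnSeries.C (vC (qG n M) K (gi β))) A.Dt _ hd
  have h3 := sum_ne_zero (K := K) gi A.Dt _ α0 h0 h0d.symm
  intro hz
  have h4 := gD_coeff hD (dt A (fun β => Polynomial.C (cA f β) +
      Polynomial.C (HahnSeries.C (vC (qG n M) K (gi β)) : OO (qG n M) K) * Polynomial.X))
      (A.Dt.support.sup (fun α => ∑ i, α i))
  rw [hz] at h4
  apply h3
  rw [← h2]
  exact h4.symm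

end fam

theorem cgu (hb4 : Hb4Stmt) (hspg : SpgStmt) : CguStmt := by
  intro n M D b A K _ _ f hG
  obtain ⟨⟨S, hS⟩, -, ht, hw, hv, hk, hth, -⟩ := hspg (qG n M) K
  have hc : ∀ β : Grid n M, cgen D f β ∈ S := by
    intro β
    unfold cgen
    exact S.add_mem (S.sub_mem (natCast_mem S _)
      (S.mul_mem ((hS _).mpr hw) ((hS _).mpr (hk _))))
      (S.mul_mem (S.pow_mem ((hS _).mpr ht) _) ((hS _).mpr (hv _)))
  have hne := dt_ne A hG.hD f
  have hu : IsUnit (dt A (cgen D f)) := isUnit_iff_ne_zero.mpr hne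
  have hM : 1 ≤ M := le_trans (by norm_num) hG.hM
  set c' : Grid n M → S.toSubring := fun β => ⟨cgen D f β, hc β⟩ with hc'
  have hcc : (cgen D f : Grid n M → LL (qG n M) K) = fun β => S.toSubring.subtype (c' β) := rfl
  have hdt : dt A (cgen D f) ∈ S := by
    rw [hcc, dt_map A S.toSubring.subtype]
    exact (dt A c').2
  have hcrd : ∀ (x : PP n (LL (qG n M) K)), (∀ s, InG (coeff s x)) →
      ∀ s, InG (crd A (cgen D f) x s) := by
    intro x hx s
    have hl : LevLe (x.support.sup fun s => s 0) x := by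
      intro s hs
      exact Finset.le_sup (f := fun s : Expo n => s 0) (mem_support_iff.mpr hs)
    have h1 := hb4 n M b A (LL (qG n M) K) (cgen D f) S.toSubring hG.hn hM hu
      (fun β => hc β) _ x (fun s => (hS _).mpr (hx s)) hl s
    rw [← hS]
    have h2 : crd A (cgen D f) x s = (dt A (cgen D f) ^ ((x.support.sup fun s => s 0) + 1))⁻¹ *
        (dt A (cgen D f) ^ ((x.support.sup fun s => s 0) + 1) * crd A (cgen D f) x s) := by
      rw [← mul_assoc, inv_mul_cancel₀ (pow_ne_zero _ hne), one_mul]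
    rw [h2]
    exact S.mul_mem (S.inv_mem (S.pow_mem hdt _)) h1
  refine ⟨hne, (hS _).mp hdt, fun β => ⟨(hS _).mp (hc β), ordGe_cgen f β⟩, hcrd, ?_⟩
  intro i j
  unfold Rm
  rw [Matrix.of_apply]
  apply hcrd
  intro s
  rw [← hS]
  have hd : ∀ a ∈ S.toSubring, thLt (qG n M) K a ∈ S.toSubring := by
    intro a ha
    exact (hS _).mpr (hth a ((hS _).mp ha))
  have hF : Cin S.toSubring (Fp (cgen D f : Grid n M → LL (qG n M) K)) := by
    rw [hcc, ← map_Fp]
    exact Cin.map _
  have hB : Cin S.toSubring (bb A (cgen D f) j) := by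
    rw [hcc, ← map_bb]
    exact Cin.map _
  have : Cin S.toSubring (nab (thLt (qG n M) K) (cgen D f) (bb A (cgen D f) j)) := by
    unfold nab
    exact (hB.cder _ hd).sub ((hF.cder _ hd).mul hB)
  exact this s

end Pool.Agent.Helper95_CM.H1
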