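import Pool.Agent.Helper95_CM.StG

/-!
# CM project, module PLX: lifts of a unipotent lattice exist at large primes
-/

set_option autoImplicit false
set_option linter.unusedSectionVars false

noncomputable section

namespace Pool.Agent.Helper95_CM.H1

open MvPolynomial

lemma lift_matrix {q : ℕ} {K : Type} [Field K] {I J : Type} [Finite I] [Finite J]
    (U : Matrix I J (LL q K)) (h : ∀ i j, InG (U i j)) :
    ∃ p0 : ℕ, ∀ (p : ℕ) [Fact p.Prime], p0 ≤ p → ∀ ι : K →+* ℚ_[p],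
      ∃ U' : Matrix I J (LL q ℤ_[p]), LiftM ι U U' := by
  classical
  haveI := Fintype.ofFinite I
  haveI := Fintype.ofFinite J
  choose p0 hp0 using fun i j => (h i j).1
  refine ⟨Finset.univ.sup fun i => Finset.univ.sup fun j => p0 i j, ?_⟩
  intro p _ hp ι
  have hle : ∀ i j, p0 i j ≤ p := fun i j =>
    le_trans (Finset.le_sup (f := fun j => p0 i j) (Finset.mem_univ j))
      (le_trans (Finset.le_sup (f := fun i => Finset.univ.sup fun j => p0 i j)
        (Finset.mem_univ i)) hp)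
  choose y hy using fun i j => hp0 i j p (hle i j) ι
  refine ⟨Matrix.of y, ?_⟩
  unfold LiftM
  ext1 i j
  simp only [Matrix.map_apply, Matrix.of_apply]
  exact hy i j

theorem plx (hcgp : CgpStmt) (hdle : DleStmt) (hfrb : FrbStmt) : PlxStmt := by
  intro n M D b A K _ _ f U Ui Rv hG hU
  obtain ⟨p1, e, h1⟩ := hcgp n M D b A K f hG
  obtain ⟨p2, h2⟩ := lift_matrix U hU.gU
  obtain ⟨p3, h3⟩ := lift_matrix Ui hU.gUi
  obtain ⟨p4, h4⟩ := lift_matrix Rv hU.gR
  refine ⟨max (max p1 p2) (max p3 p4), ?_⟩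
  intro p _ hp ι
  obtain ⟨⟨f', hf'⟩, h5⟩ := h1 p (le_trans (le_trans (le_max_left _ _) (le_max_left _ _)) hp) ι
  obtain ⟨U', hU'⟩ := h2 p (le_trans (le_trans (le_max_right _ _) (le_max_left _ _)) hp) ι
  obtain ⟨Ui', hUi'⟩ := h3 p (le_trans (le_trans (le_max_left _ _) (le_max_right _ _)) hp) ι
  obtain ⟨Rv', hRv'⟩ := h4 p (le_trans (le_trans (le_max_right _ _) (le_max_right _ _)) hp) ι
  obtain ⟨Dl, hDl⟩ := (hdle n M p (LL (qG n M) ℤ_[p]) (kL (qG n M) ℤ_[p])
    (phL (qG n M) ℤ_[p] p) (thLt (qG n M) ℤ_[p]) (cgen D f') (hfrb (qG n M) p).1).1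
  exact ⟨f', Dl, U', Ui', Rv', ⟨hf', hDl, (h5 f' hf').2.1, hU', hUi', hRv'⟩⟩

end Pool.Agent.Helper95_CM.H1
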